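import Mathlib

set_option autoImplicit false

namespace Pool.Agent.Lib.MP_6b2d39_agHyD

/-- HD3. for two elements `m < m'` the number `α (m' - m)` is within `6 δ` of an integer, so
`1 < (m' - m) δ`: the map `m ↦ ⌊δ m⌋₊` is injective on the set, its values are at most `δ M` -/
theorem card_spread (α β δ : ℝ) (M : ℕ) (hδ : 0 < δ)
    (h : ∀ q : ℕ, 1 ≤ q → q * δ ≤ 1 → ∀ p : ℤ, 6 * δ < |α * q - p|) :
    (({m : ℕ | m < M ∧ ∃ k : ℤ, |α * m + β - k| ≤ 3 * δ}.ncard : ℕ) : ℝ) ≤ δ * M + 1 := by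
  have key : ∀ m m' : ℕ, m < m' → (∃ k : ℤ, |α * m + β - k| ≤ 3 * δ) →
      (∃ k : ℤ, |α * m' + β - k| ≤ 3 * δ) → ⌊δ * m⌋₊ < ⌊δ * m'⌋₊ := by
    rintro m m' hmm ⟨k, hk⟩ ⟨k', hk'⟩
    have hc : ((m' - m : ℕ) : ℝ) = (m' : ℝ) - m := Nat.cast_sub hmm.le
    have h1 : 1 < ((m' - m : ℕ) : ℝ) * δ := by
      by_contra hle
      have h2 := h (m' - m) (by omega) (not_lt.1 hle) (k' - k)
      have h3 : α * ((m' - m : ℕ) : ℝ) - ((k' - k : ℤ) : ℝ) =
          (α * m' + β - k') - (α * m + β - k) := by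
        rw [hc]
        push_cast
        ring
      rw [h3] at h2
      have h4 := abs_sub (α * m' + β - k') (α * m + β - k)
      linarith
    rw [hc] at h1
    have h5 : δ * (m : ℝ) + 1 ≤ δ * m' := by linarith
    have h6 : ⌊δ * (m : ℝ)⌋₊ + 1 ≤ ⌊δ * (m' : ℝ)⌋₊ := by
      rw [← Nat.floor_add_one (by positivity)]
      exact Nat.floor_le_floor h5
    omega
  have h1 : {m : ℕ | m < M ∧ ∃ k : ℤ, |α * m + β - k| ≤ 3 * δ}.ncard ≤
      ((Finset.range (⌊δ * M⌋₊ + 1) : Finset ℕ) : Set ℕ).ncard := by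
    refine Set.ncard_le_ncard_of_injOn (fun m : ℕ => ⌊δ * m⌋₊) ?_ ?_ (Finset.finite_toSet _)
    · rintro m ⟨hm, -⟩
      rw [Finset.mem_coe, Finset.mem_range]
      refine Nat.lt_succ_of_le (Nat.floor_le_floor ?_)
      have : (m : ℝ) ≤ M := by exact_mod_cast hm.le
      exact mul_le_mul_of_nonneg_left this hδ.le
    · rintro m ⟨-, hm⟩ m' ⟨-, hm'⟩ he
      simp only at he
      rcases lt_trichotomy m m' with h2 | h2 | h2
      · exact absurd he (key m m' h2 hm hm').ne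
      · exact h2
      · exact absurd he (key m' m h2 hm' hm).ne'
  rw [Set.ncard_coe_finset, Finset.card_range] at h1
  have h2 : (⌊δ * (M : ℝ)⌋₊ : ℝ) ≤ δ * M := Nat.floor_le (by positivity)
  have h3 : (({m : ℕ | m < M ∧ ∃ k : ℤ, |α * m + β - k| ≤ 3 * δ}.ncard : ℕ) : ℝ) ≤
      ((⌊δ * (M : ℝ)⌋₊ + 1 : ℕ) : ℝ) := by exact_mod_cast h1
  push_cast at h3
  linarith

end Pool.Agent.Lib.MP_6b2d39_agHyD
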