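import Pool.Agent.Lib.MP_6b2d39_agHyD.Class
import Pool.Agent.Lib.MP_6b2d39_agHyD.Spread

set_option autoImplicit false

namespace Pool.Agent.Lib.MP_6b2d39_agHyD

/-- HD4. If there are `1 ≤ q ≤ 1 / δ` and `p` with `|θ| ≤ 6 δ`, `θ = α q - p`: classes
`m = r + q t`, `r < q`, `t < M / q + 1` (`card_class` with `φ = α r + β`, `k` replaced by `k - p t`),
sum at most `q (|θ| L + 3) (12 δ / |θ|)` with `q L ≤ M + q`, `q δ ≤ 1`, `1 / |θ| ≤ c q`.
Otherwise `card_spread`. -/
theorem card_near (α β δ c : ℝ) (M : ℕ) (hδ : 0 < δ) (h1 : δ ≤ 1 / 12) (hc : 1 ≤ c)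
    (hα : ∀ q : ℕ, 1 ≤ q → ∀ p : ℤ, 1 ≤ c * q * |α * q - p|) :
    (({m : ℕ | m < M ∧ ∃ k : ℤ, |α * m + β - k| ≤ 3 * δ}.ncard : ℕ) : ℝ) ≤
      12 * δ * M + 12 + 36 * c / δ := by
  classical
  have hcδ : 0 ≤ 36 * c / δ := by positivity
  have hδM : 0 ≤ δ * M := by positivity
  by_cases hA : ∀ q : ℕ, 1 ≤ q → q * δ ≤ 1 → ∀ p : ℤ, 6 * δ < |α * q - p|
  · have h2 := card_spread α β δ M hδ hA
    linarith
  · push Not at hA
    obtain ⟨q, hq, hqδ, p, hp⟩ := hA
    obtain ⟨θ, hθ⟩ : ∃ θ : ℝ, θ = α * q - p := ⟨_, rfl⟩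
    rw [← hθ] at hp
    have hq0 : (1 : ℝ) ≤ q := by exact_mod_cast hq
    have h3 := hα q hq p
    rw [← hθ] at h3
    have hθ0 : θ ≠ 0 := by
      intro h0
      rw [h0, abs_zero, mul_zero] at h3
      linarith
    have hθp : 0 < |θ| := abs_pos.2 hθ0
    obtain ⟨L, hL⟩ : ∃ L, L = M / q + 1 := ⟨_, rfl⟩
    have hqL : q * L ≤ M + q := by
      rw [hL, mul_add, mul_one]
      exact Nat.add_le_add_right (Nat.mul_div_le M q) q
    have hqL' : (q : ℝ) * L ≤ M + q := by exact_mod_cast hqL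
    obtain ⟨Sf, hSf⟩ : ∃ Sf : ℕ → Finset ℕ, Sf = fun r : ℕ => (Finset.range L).filter
      fun t : ℕ => ∃ k : ℤ, |(α * r + β) + θ * t - k| ≤ 3 * δ := ⟨_, rfl⟩
    have hcl : ∀ r : ℕ, ((Sf r).card : ℝ) ≤ (|θ| * L + 3) * (12 * δ / |θ|) := by
      intro r
      have h4 := card_class (α * r + β) θ δ L hδ h1 hθ0 hp
      have e : {t : ℕ | t < L ∧ ∃ k : ℤ, |(α * r + β) + θ * t - k| ≤ 3 * δ} = ↑(Sf r) := by
        ext t
        rw [hSf, Finset.mem_coe, Finset.mem_filter, Finset.mem_range]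
        rfl
      rw [e, Set.ncard_coe_finset] at h4
      exact h4
    have e : {m : ℕ | m < M ∧ ∃ k : ℤ, |α * m + β - k| ≤ 3 * δ} =
        ↑((Finset.range M).filter fun m : ℕ => ∃ k : ℤ, |α * m + β - k| ≤ 3 * δ) := by
      ext t
      rw [Finset.mem_coe, Finset.mem_filter, Finset.mem_range]
      rfl
    rw [e, Set.ncard_coe_finset]
    have hsub : (Finset.range M).filter (fun m : ℕ => ∃ k : ℤ, |α * m + β - k| ≤ 3 * δ) ⊆
        (Finset.range q).biUnion fun r => (Sf r).image fun t => r + q * t := by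
      intro m hm
      rw [Finset.mem_filter, Finset.mem_range] at hm
      obtain ⟨hmM, k, hk⟩ := hm
      rw [Finset.mem_biUnion]
      refine ⟨m % q, Finset.mem_range.2 (Nat.mod_lt _ (by omega)), ?_⟩
      rw [Finset.mem_image]
      refine ⟨m / q, ?_, Nat.mod_add_div m q⟩
      rw [hSf, Finset.mem_filter, Finset.mem_range]
      refine ⟨?_, k - p * (m / q : ℕ), ?_⟩
      · rw [hL]
        exact Nat.lt_succ_of_le (Nat.div_le_div_right hmM.le)
      · have e1 : (m : ℝ) = (m % q : ℕ) + q * (m / q : ℕ) := by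
          exact_mod_cast (Nat.mod_add_div m q).symm
        have e2 : (α * (m % q : ℕ) + β) + θ * (m / q : ℕ) -
            ((k - p * (m / q : ℕ) : ℤ) : ℝ) = α * m + β - k := by
          rw [Int.cast_sub, Int.cast_mul, Int.cast_natCast, hθ]
          linear_combination -α * e1
        rw [e2]
        exact hk
    have h5 : (((Finset.range M).filter fun m : ℕ => ∃ k : ℤ, |α * m + β - k| ≤ 3 * δ).card : ℝ) ≤
        q * ((|θ| * L + 3) * (12 * δ / |θ|)) := by
      have h6 := (Finset.card_le_card hsub).trans Finset.card_biUnion_le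
      have h7 : (((Finset.range M).filter fun m : ℕ => ∃ k : ℤ, |α * m + β - k| ≤ 3 * δ).card : ℝ) ≤
          ∑ r ∈ Finset.range q, (((Sf r).image fun t => r + q * t).card : ℝ) := by
        exact_mod_cast h6
      refine h7.trans ?_
      calc ∑ r ∈ Finset.range q, (((Sf r).image fun t => r + q * t).card : ℝ)
          ≤ ∑ r ∈ Finset.range q, (|θ| * L + 3) * (12 * δ / |θ|) := by
            refine Finset.sum_le_sum fun r _ => le_trans ?_ (hcl r)
            exact_mod_cast Finset.card_image_le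
        _ = q * ((|θ| * L + 3) * (12 * δ / |θ|)) := by
            rw [Finset.sum_const, Finset.card_range, nsmul_eq_mul]
    refine h5.trans ?_
    have h8 : (q : ℝ) * ((|θ| * L + 3) * (12 * δ / |θ|)) =
        12 * δ * (q * L) + 36 * δ * q * (1 / |θ|) := by
      field_simp
      ring
    rw [h8]
    have h9 : 1 / |θ| ≤ c * q := by
      rw [div_le_iff₀ hθp]
      exact h3
    have h10 : 12 * δ * (q * L) ≤ 12 * δ * M + 12 := by
      have : 12 * δ * (q * L) ≤ 12 * δ * (M + q) := mul_le_mul_of_nonneg_left hqL' (by positivity)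
      nlinarith
    have h11 : 36 * δ * q * (1 / |θ|) ≤ 36 * c / δ := by
      have h12 : 36 * δ * q * (1 / |θ|) ≤ 36 * δ * q * (c * q) :=
        mul_le_mul_of_nonneg_left h9 (by positivity)
      refine h12.trans ?_
      rw [le_div_iff₀ hδ]
      have h13 : 0 ≤ (q : ℝ) * δ := by positivity
      have h14 : ((q : ℝ) * δ) * (q * δ) ≤ 1 := by nlinarith
      have h15 : 36 * δ * q * (c * q) * δ = 36 * c * (((q : ℝ) * δ) * (q * δ)) := by ring
      rw [h15]
      have h16 : 36 * c * (((q : ℝ) * δ) * (q * δ)) ≤ 36 * c * 1 :=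
        mul_le_mul_of_nonneg_left h14 (by positivity)
      linarith
    linarith

end Pool.Agent.Lib.MP_6b2d39_agHyD
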