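import Mathlib

set_option autoImplicit false

namespace Pool.Agent.Lib.MP_6b2d39_agHyD

/-- HD5. `|n q ^ 2 - p ^ 2| ≥ 1`; trivial if `p < 0` or `|√n q - p| ≥ 1`, otherwise
`√n q + p ≤ 2 √n q + 1 ≤ 3 √n q` -/
theorem sqrt_irr (n : ℕ) (hn : ¬ IsSquare n) (q : ℕ) (hq : 1 ≤ q) (p : ℤ) :
    1 ≤ 3 * √(n : ℝ) * q * |√(n : ℝ) * q - p| := by
  have hn1 : 1 ≤ n := by
    rcases Nat.eq_zero_or_pos n with h | h
    · exact absurd (h ▸ (⟨0, rfl⟩ : IsSquare (0 : ℕ))) hn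
    · exact h
  have hs0 : 0 ≤ √(n : ℝ) := Real.sqrt_nonneg _
  have hss : √(n : ℝ) * √(n : ℝ) = n := Real.mul_self_sqrt (Nat.cast_nonneg n)
  have hn1' : (1 : ℝ) ≤ n := by exact_mod_cast hn1
  have hs1 : 1 ≤ √(n : ℝ) := by nlinarith
  have hq1 : (1 : ℝ) ≤ q := by exact_mod_cast hq
  have hsq : 1 ≤ √(n : ℝ) * q := by nlinarith
  rcases le_or_gt 1 |√(n : ℝ) * q - p| with h | h
  · nlinarith
  · have hne : (n : ℤ) * (q : ℤ) ^ 2 - p ^ 2 ≠ 0 := by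
      intro h0
      apply hn
      have h1 : (n : ℤ) * (q : ℤ) ^ 2 = p ^ 2 := by linarith
      have h2 : (q : ℤ) ^ 2 ∣ p ^ 2 := Dvd.intro_left _ h1
      have h3 : (q : ℤ) ∣ p := (Int.pow_dvd_pow_iff two_ne_zero).1 h2
      obtain ⟨r, hr⟩ := h3
      have hq0 : (q : ℤ) ^ 2 ≠ 0 := by
        have : (q : ℤ) ≠ 0 := by exact_mod_cast (Nat.one_le_iff_ne_zero.1 hq)
        exact pow_ne_zero 2 this
      have h4 : (n : ℤ) = r ^ 2 := by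
        apply mul_right_cancel₀ hq0
        rw [h1, hr]
        ring
      refine ⟨r.natAbs, ?_⟩
      zify
      rw [← sq, sq_abs, ← h4]
    have h5 : (1 : ℤ) ≤ |(n : ℤ) * (q : ℤ) ^ 2 - p ^ 2| := Int.one_le_abs hne
    have h6 : (1 : ℝ) ≤ |(n : ℝ) * (q : ℝ) ^ 2 - (p : ℝ) ^ 2| := by exact_mod_cast h5
    have h7 : (n : ℝ) * (q : ℝ) ^ 2 - (p : ℝ) ^ 2 =
        (√(n : ℝ) * q + p) * (√(n : ℝ) * q - p) := by
      linear_combination (-(q : ℝ) ^ 2) * hss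
    rw [h7, abs_mul] at h6
    obtain ⟨h8, h9⟩ := abs_lt.1 h
    have h10 : |√(n : ℝ) * q + p| ≤ 3 * √(n : ℝ) * q := by
      rw [abs_le]
      constructor <;> nlinarith
    exact h6.trans (mul_le_mul_of_nonneg_right h10 (abs_nonneg _))

end Pool.Agent.Lib.MP_6b2d39_agHyD
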