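import Pool.Agent.Lib.MP_6b2d39_agHyD.Near
import Pool.Agent.Lib.MP_6b2d39_agHyD.Count
import Pool.Agent.Lib.MP_6b2d39_agHyD.Irr
import Pool.Agent.Lib.MP_6b2d39_agHy.Main

set_option autoImplicit false

namespace Pool.Agent.Lib.MP_6b2d39_agHyD

open Pool.Agent.Lib.MP_6b2d39_agCr

/-- HD6. `δ = n ^ (-1 / 25)`, `all_but_one` gives `|v| < δ d` at a bad degree; `m` with `4 δ m < √n`:
at most `√n / (4 δ) + 1`; the others by `near_crit`, `card_near` (`c = 3 √n`):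
`12 δ M + 12 + 108 √n / δ`; `√n ≤ δ ^ 2 M`, `1 ≤ δ M` -/
theorem almost_all : ∃ N0 : ℕ, ∀ n M : ℕ, N0 ≤ n → ¬ IsSquare n → (n : ℝ) ^ (3 / 5 : ℝ) ≤ M →
    (M : ℝ) ≤ Real.exp (Real.log n ^ 2 / 4000) →
    (({m : ℕ | m < M ∧ ∃ d : ℕ, ¬ General (fun P =>
      (Module.finrank ℂ (curves d (fun _ : Fin n => m) P) : ℤ) =
        max (vd d (fun _ : Fin n => m)) 0)}.ncard : ℕ) : ℝ) ≤
      200 * (n : ℝ) ^ (-(1 / 25) : ℝ) * M := by
  obtain ⟨N1, h1⟩ := Pool.Agent.Lib.MP_6b2d39_agHy.all_but_one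
  refine ⟨max N1 (12 ^ 25), fun n M hn hsq hM hM2 => ?_⟩
  have hn1 : N1 ≤ n := (le_max_left _ _).trans hn
  have hn2 : 12 ^ 25 ≤ n := (le_max_right _ _).trans hn
  have hn2' : ((12 : ℝ) ^ 25) ≤ n := by exact_mod_cast hn2
  have hn3 : 1 ≤ n := le_trans (by norm_num) hn2
  have hn3' : (1 : ℝ) ≤ n := by exact_mod_cast hn3
  have hn0 : (0 : ℝ) < n := lt_of_lt_of_le one_pos hn3'
  have h12 : (12 : ℝ) ≤ (n : ℝ) ^ (1 / 25 : ℝ) := by
    have e1 : ((12 : ℝ) ^ 25) ^ (1 / 25 : ℝ) = 12 := by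
      have e2 := Real.pow_rpow_inv_natCast (x := 12) (n := 25) (by norm_num) (by norm_num)
      rw [show (1 / 25 : ℝ) = ((25 : ℕ) : ℝ)⁻¹ from by norm_num]
      exact e2
    rw [← e1]
    exact Real.rpow_le_rpow (by positivity) hn2' (by norm_num)
  obtain ⟨δ, hδ⟩ : ∃ δ : ℝ, δ = (n : ℝ) ^ (-(1 / 25) : ℝ) := ⟨_, rfl⟩
  have hδ0 : 0 < δ := by
    rw [hδ]
    exact Real.rpow_pos_of_pos hn0 _
  have hδ1 : δ ≤ 1 / 12 := by
    rw [hδ, Real.rpow_neg hn0.le]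
    exact (inv_anti₀ (by norm_num) h12).trans (le_of_eq (one_div _).symm)
  have hs0 : 0 ≤ √(n : ℝ) := Real.sqrt_nonneg _
  have hs1 : 1 ≤ √(n : ℝ) := Real.one_le_sqrt.2 hn3'
  have hs : √(n : ℝ) ≤ δ ^ 2 * M := by
    have e1 : δ ^ 2 * (n : ℝ) ^ (3 / 5 : ℝ) = (n : ℝ) ^ (13 / 25 : ℝ) := by
      rw [hδ, ← Real.rpow_natCast, ← Real.rpow_mul hn0.le, ← Real.rpow_add hn0]
      norm_num
    calc √(n : ℝ) = (n : ℝ) ^ (1 / 2 : ℝ) := Real.sqrt_eq_rpow _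
      _ ≤ (n : ℝ) ^ (13 / 25 : ℝ) := Real.rpow_le_rpow_of_exponent_le hn3' (by norm_num)
      _ = δ ^ 2 * (n : ℝ) ^ (3 / 5 : ℝ) := e1.symm
      _ ≤ δ ^ 2 * M := mul_le_mul_of_nonneg_left hM (by positivity)
  have hs2 : √(n : ℝ) / δ ≤ δ * M := by
    rw [div_le_iff₀ hδ0]
    calc √(n : ℝ) ≤ δ ^ 2 * M := hs
      _ = δ * M * δ := by ring
  have hs3 : 1 ≤ δ * M := by
    refine le_trans ?_ hs2
    rw [le_div_iff₀ hδ0, one_mul]
    linarith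
  -- the bad set
  obtain ⟨A, hA⟩ : ∃ A : Set ℕ, A = {m : ℕ | m < M ∧ ∃ d : ℕ, ¬ General (fun P =>
      (Module.finrank ℂ (curves d (fun _ : Fin n => m) P) : ℤ) =
        max (vd d (fun _ : Fin n => m)) 0)} := ⟨_, rfl⟩
  obtain ⟨B, hB⟩ : ∃ B : Set ℕ, B = {m : ℕ | 4 * δ * m < √(n : ℝ)} := ⟨_, rfl⟩
  obtain ⟨C, hC⟩ : ∃ C : Set ℕ, C = {m : ℕ | m < M ∧ ∃ k : ℤ,
      |√(n : ℝ) * m + (√(n : ℝ) / 2 - 3 / 2) - k| ≤ 3 * δ} := ⟨_, rfl⟩
  have hsub : A ⊆ B ∪ C := by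
    intro m hm
    rw [hA] at hm
    obtain ⟨hmM, d, hd⟩ := hm
    rcases lt_or_ge (4 * δ * m) √(n : ℝ) with h | h
    · left
      rw [hB]
      exact h
    · right
      rw [hC]
      refine ⟨hmM, ?_⟩
      have hmM' : (m : ℝ) ≤ Real.exp (Real.log n ^ 2 / 4000) := by
        have h2 : (m : ℝ) ≤ M := by exact_mod_cast hmM.le
        exact h2.trans hM2
      obtain ⟨d0, hd0⟩ := h1 n m hn1 hmM' (fun _ => m) (fun _ => Or.inl rfl)
      have hv : |((vd d (fun _ : Fin n => m) : ℤ) : ℝ)| < δ * d := by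
        by_contra hv
        rw [not_lt, hδ] at hv
        exact hd (hd0 d (Or.inr hv))
      exact near_crit n m d δ hδ0 hn3 h hv
  have hCfin : C.Finite := by
    refine (Set.finite_lt_nat M).subset ?_
    intro m hm
    rw [hC] at hm
    exact hm.1
  have hBsub : B ⊆ (Finset.range (⌊√(n : ℝ) / (4 * δ)⌋₊ + 1) : Set ℕ) := by
    intro m hm
    rw [hB] at hm
    have hm' : 4 * δ * m < √(n : ℝ) := hm
    rw [Finset.mem_coe, Finset.mem_range, Nat.lt_succ_iff]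
    apply Nat.le_floor
    rw [le_div_iff₀ (by positivity)]
    nlinarith
  have hBfin : B.Finite := (Finset.finite_toSet _).subset hBsub
  have hBc : ((B.ncard : ℕ) : ℝ) ≤ √(n : ℝ) / (4 * δ) + 1 := by
    have h2 := Set.ncard_le_ncard hBsub (Finset.finite_toSet _)
    rw [Set.ncard_coe_finset, Finset.card_range] at h2
    have h3 : ((B.ncard : ℕ) : ℝ) ≤ ((⌊√(n : ℝ) / (4 * δ)⌋₊ + 1 : ℕ) : ℝ) := by
      exact_mod_cast h2
    refine h3.trans ?_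
    push_cast
    have h4 := Nat.floor_le (a := √(n : ℝ) / (4 * δ)) (by positivity)
    linarith
  have hCc : ((C.ncard : ℕ) : ℝ) ≤ 12 * δ * M + 12 + 36 * (3 * √(n : ℝ)) / δ := by
    rw [hC]
    exact card_near √(n : ℝ) (√(n : ℝ) / 2 - 3 / 2) δ (3 * √(n : ℝ)) M hδ0 hδ1 (by linarith)
      (fun q hq p => sqrt_irr n hsq q hq p)
  have hAc : ((A.ncard : ℕ) : ℝ) ≤ (B.ncard : ℝ) + (C.ncard : ℝ) := by
    have h2 := Set.ncard_le_ncard hsub (hBfin.union hCfin)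
    have h3 := Set.ncard_union_le B C
    exact_mod_cast h2.trans h3
  rw [← hA, ← hδ]
  have e1 : √(n : ℝ) / (4 * δ) = (√(n : ℝ) / δ) / 4 := by
    rw [div_div, mul_comm δ 4]
  have e2 : 36 * (3 * √(n : ℝ)) / δ = 108 * (√(n : ℝ) / δ) := by ring
  rw [e1] at hBc
  rw [e2] at hCc
  nlinarith

end Pool.Agent.Lib.MP_6b2d39_agHyD
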