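import Mathlib

set_option autoImplicit false

namespace Pool.Agent.Lib.MP_6b2d39_agHyD

private theorem card_class_pos (φ θ δ : ℝ) (L : ℕ) (hδ : 0 < δ) (h1 : δ ≤ 1 / 12) (h0 : 0 < θ)
    (hθ : θ ≤ 6 * δ) :
    (({t : ℕ | t < L ∧ ∃ k : ℤ, |φ + θ * t - k| ≤ 3 * δ}.ncard : ℕ) : ℝ) ≤
      (θ * L + 3) * (12 * δ / θ) := by
  classical
  have hset : {t : ℕ | t < L ∧ ∃ k : ℤ, |φ + θ * t - k| ≤ 3 * δ} =
      (((Finset.range L).filter fun t : ℕ => ∃ k : ℤ, |φ + θ * t - k| ≤ 3 * δ : Finset ℕ) : Set ℕ) := by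
    ext t
    rw [Finset.mem_coe, Finset.mem_filter, Finset.mem_range]
    exact Iff.rfl
  rw [hset, Set.ncard_coe_finset]
  obtain ⟨S, hS⟩ : ∃ S : Finset ℕ, S = (Finset.range L).filter fun t : ℕ =>
    ∃ k : ℤ, |φ + θ * t - k| ≤ 3 * δ := ⟨_, rfl⟩
  rw [← hS]
  obtain ⟨f, hf⟩ : ∃ f : ℕ → ℤ, ∀ t ∈ S, |φ + θ * t - f t| ≤ 3 * δ := by
    refine ⟨fun t => if h : ∃ k : ℤ, |φ + θ * t - k| ≤ 3 * δ then h.choose else 0,
      fun t ht => ?_⟩
    rw [hS, Finset.mem_filter] at ht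
    beta_reduce
    rw [dif_pos ht.2]
    exact ht.2.choose_spec
  have hSL : ∀ t ∈ S, (t : ℝ) ≤ L := by
    intro t ht
    rw [hS, Finset.mem_filter, Finset.mem_range] at ht
    exact_mod_cast ht.1.le
  have h6 : 0 ≤ 6 * δ / θ := by positivity
  have hfib : ∀ a ∈ S.image f, (S.filter fun t => f t = a).card ≤ ⌊6 * δ / θ⌋₊ + 1 := by
    intro a _
    obtain ⟨F, hF⟩ : ∃ F : Finset ℕ, F = S.filter fun t => f t = a := ⟨_, rfl⟩
    rw [← hF]
    by_cases hne : F.Nonempty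
    · obtain ⟨t0, ht0, hmin⟩ : ∃ t0 ∈ F, ∀ t ∈ F, t0 ≤ t :=
        ⟨F.min' hne, F.min'_mem hne, fun t ht => F.min'_le t ht⟩
      have hsub : F ⊆ Finset.Icc t0 (t0 + ⌊6 * δ / θ⌋₊) := by
        intro t ht
        rw [Finset.mem_Icc]
        refine ⟨hmin t ht, ?_⟩
        have hle := hmin t ht
        rw [hF, Finset.mem_filter] at ht ht0
        have e1 := abs_le.mp (hf t ht.1)
        have e2 := abs_le.mp (hf t0 ht0.1)
        rw [ht.2] at e1
        rw [ht0.2] at e2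
        have e3 : (((t - t0 : ℕ) : ℝ)) ≤ 6 * δ / θ := by
          rw [le_div_iff₀ h0, Nat.cast_sub hle]
          nlinarith [e1.2, e2.1]
        have e4 := Nat.le_floor e3
        omega
      have hc := Finset.card_le_card hsub
      rw [Nat.card_Icc] at hc
      omega
    · rw [Finset.not_nonempty_iff_eq_empty.mp hne, Finset.card_empty]
      exact Nat.zero_le _
  have hcard := Finset.card_le_mul_card_image S (⌊6 * δ / θ⌋₊ + 1) hfib
  have himg : ((S.image f).card : ℝ) ≤ θ * L + 3 := by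
    have hsub : S.image f ⊆ Finset.Icc ⌈φ - 3 * δ⌉ ⌊φ + θ * L + 3 * δ⌋ := by
      intro a ha
      rw [Finset.mem_image] at ha
      obtain ⟨t, ht, rfl⟩ := ha
      have e1 := abs_le.mp (hf t ht)
      have e2 : 0 ≤ θ * (t : ℝ) := by positivity
      have e3 : θ * (t : ℝ) ≤ θ * L := mul_le_mul_of_nonneg_left (hSL t ht) h0.le
      rw [Finset.mem_Icc, Int.ceil_le, Int.le_floor]
      exact ⟨by linarith [e1.2], by linarith [e1.1]⟩
    have hc := Finset.card_le_card hsub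
    rw [Int.card_Icc] at hc
    have hc' : ((S.image f).card : ℝ) ≤
        ((⌊φ + θ * L + 3 * δ⌋ + 1 - ⌈φ - 3 * δ⌉).toNat : ℝ) := by exact_mod_cast hc
    refine hc'.trans ?_
    by_cases hn : 0 ≤ ⌊φ + θ * L + 3 * δ⌋ + 1 - ⌈φ - 3 * δ⌉
    · have e1 : (((⌊φ + θ * L + 3 * δ⌋ + 1 - ⌈φ - 3 * δ⌉).toNat : ℤ) : ℝ) =
          ((⌊φ + θ * L + 3 * δ⌋ + 1 - ⌈φ - 3 * δ⌉ : ℤ) : ℝ) := by rw [Int.toNat_of_nonneg hn]
      rw [Int.cast_natCast] at e1
      rw [e1]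
      push_cast
      have e2 := Int.floor_le (φ + θ * L + 3 * δ)
      have e3 := Int.le_ceil (φ - 3 * δ)
      linarith
    · rw [Int.toNat_of_nonpos (by omega), Nat.cast_zero]
      positivity
  have hn : ((⌊6 * δ / θ⌋₊ + 1 : ℕ) : ℝ) ≤ 12 * δ / θ := by
    push_cast
    have e1 := Nat.floor_le h6
    have e2 : 1 ≤ 6 * δ / θ := by
      rw [le_div_iff₀ h0]
      linarith
    have e3 : 12 * δ / θ = 6 * δ / θ + 6 * δ / θ := by ring
    linarith
  calc (S.card : ℝ) ≤ ((⌊6 * δ / θ⌋₊ + 1 : ℕ) : ℝ) * ((S.image f).card : ℝ) := by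
        exact_mod_cast hcard
    _ ≤ (12 * δ / θ) * (θ * L + 3) :=
        mul_le_mul hn himg (Nat.cast_nonneg _) (by positivity)
    _ = (θ * L + 3) * (12 * δ / θ) := by ring

/-- HD2. `k` lies in an interval of the length `|θ| L + 6 δ`, so at most `|θ| L + 3` values of `k`;
for each `k` at most `6 δ / |θ| + 1 ≤ 12 δ / |θ|` values of `t` -/
theorem card_class (φ θ δ : ℝ) (L : ℕ) (hδ : 0 < δ) (h1 : δ ≤ 1 / 12) (h0 : θ ≠ 0)
    (hθ : |θ| ≤ 6 * δ) :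
    (({t : ℕ | t < L ∧ ∃ k : ℤ, |φ + θ * t - k| ≤ 3 * δ}.ncard : ℕ) : ℝ) ≤
      (|θ| * L + 3) * (12 * δ / |θ|) := by
  rcases lt_or_gt_of_ne h0 with hneg | hpos
  · have e : {t : ℕ | t < L ∧ ∃ k : ℤ, |φ + θ * t - k| ≤ 3 * δ} =
        {t : ℕ | t < L ∧ ∃ k : ℤ, |(-φ) + (-θ) * t - k| ≤ 3 * δ} := by
      ext t
      constructor
      · rintro ⟨h2, k, hk⟩
        refine ⟨h2, -k, ?_⟩
        have e2 : (-φ) + (-θ) * t - ((-k : ℤ) : ℝ) = -(φ + θ * t - k) := by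
          push_cast
          ring
        rw [e2, abs_neg]
        exact hk
      · rintro ⟨h2, k, hk⟩
        refine ⟨h2, -k, ?_⟩
        have e2 : φ + θ * t - ((-k : ℤ) : ℝ) = -((-φ) + (-θ) * t - k) := by
          push_cast
          ring
        rw [e2, abs_neg]
        exact hk
    rw [e, abs_of_neg hneg]
    rw [abs_of_neg hneg] at hθ
    exact card_class_pos (-φ) (-θ) δ L hδ h1 (by linarith) hθ
  · rw [abs_of_pos hpos]
    rw [abs_of_pos hpos] at hθ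
    exact card_class_pos φ θ δ L hδ h1 hpos hθ

end Pool.Agent.Lib.MP_6b2d39_agHyD
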