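import Pool.Agent.Lib.MP_6b2d39_agCr.Defs

set_option autoImplicit false

namespace Pool.Agent.Lib.MP_6b2d39_agHyD

open Pool.Agent.Lib.MP_6b2d39_agCr

/-- HD1. an undecided degree is near the critical one. `x = m + 1 / 2`,
`2 v = (d + 3 / 2) ^ 2 - n x ^ 2 + (n - 1) / 4`, so
`|d + 3 / 2 - √n x| (d + 3 / 2 + √n x) ≤ 2 δ d + n / 4`, `k = d` -/
theorem near_crit (n m d : ℕ) (δ : ℝ) (hδ : 0 < δ) (hn : 1 ≤ n) (hm : √n ≤ 4 * δ * m)
    (hv : |((vd d (fun _ : Fin n => m) : ℤ) : ℝ)| < δ * d) :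
    ∃ k : ℤ, |√n * m + (√n / 2 - 3 / 2) - k| ≤ 3 * δ := by
  have hv2 : (((vd d (fun _ : Fin n => m) : ℤ) : ℝ)) =
      ((d : ℝ) + 2) * (d + 1) / 2 - n * (((m : ℝ) + 1) * m / 2) := by
    have e1 : (((d + 2).choose 2 : ℕ) : ℝ) = ((d : ℝ) + 2) * (d + 1) / 2 := by
      rw [Nat.cast_choose_two]; push_cast; ring
    have e2 : (((m + 1).choose 2 : ℕ) : ℝ) = ((m : ℝ) + 1) * m / 2 := by
      rw [Nat.cast_choose_two]; push_cast; ring
    simp only [vd, Finset.sum_const, Finset.card_univ, Fintype.card_fin, nsmul_eq_mul]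
    push_cast
    rw [e1, e2]
  have hn0 : (0 : ℝ) ≤ n := Nat.cast_nonneg n
  have hs : √(n : ℝ) * √(n : ℝ) = n := Real.mul_self_sqrt hn0
  have hs1 : 1 ≤ √(n : ℝ) := by
    rw [Real.one_le_sqrt]; exact_mod_cast hn
  have hd0 : (0 : ℝ) ≤ d := Nat.cast_nonneg d
  have hm0 : (0 : ℝ) ≤ m := Nat.cast_nonneg m
  refine ⟨d, ?_⟩
  set s : ℝ := √(n : ℝ) with hsdef
  rw [hv2, abs_lt] at hv
  have hsm : 0 ≤ s * m := by positivity
  have hB : (0 : ℝ) < d + 3 / 2 + s * (m + 1 / 2) := by nlinarith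
  have hkey : (s * m + (s / 2 - 3 / 2) - d) * (d + 3 / 2 + s * (m + 1 / 2)) =
      - (2 * (((d : ℝ) + 2) * (d + 1) / 2 - n * (((m : ℝ) + 1) * m / 2)) - (n - 1) / 4) := by
    linear_combination (m + 1 / 2) ^ 2 * hs
  have h4 : (n : ℝ) / 4 ≤ δ * (s * m) := by
    have := mul_le_mul_of_nonneg_left hm (le_trans zero_le_one hs1)
    nlinarith
  have hn1 : (1 : ℝ) ≤ n := by exact_mod_cast hn
  rw [Int.cast_natCast, abs_le]
  constructor
  · by_contra hc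
    push Not at hc
    have h5 := mul_lt_mul_of_pos_right hc hB
    rw [hkey] at h5
    have h6 : 0 ≤ δ * d := by positivity
    nlinarith [hv.1, hv.2, mul_nonneg hδ.le (le_trans zero_le_one hs1)]
  · by_contra hc
    push Not at hc
    have h5 := mul_lt_mul_of_pos_right hc hB
    rw [hkey] at h5
    have h6 : 0 ≤ δ * d := by positivity
    nlinarith [hv.1, hv.2, mul_nonneg hδ.le (le_trans zero_le_one hs1)]

end Pool.Agent.Lib.MP_6b2d39_agHyD
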